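import Mathlib
import Pool.Agent.Helper26.AF.Goals3
import Pool.Agent.Helper26.AF.Base

/-!
Packet AF-LOW (project AF, MP_af6c86_pr): the lower bound for the probability of not embedding.
-/

set_option autoImplicit false

namespace Pool.Agent.Helper69.AF

open Finset Filter Topology
open Pool.Agent.Helper26.AF

lemma pc_event (l : ℝ) : ∀ᶠ n : ℕ in atTop, 0 < pc l n ∧ pc l n < 1 := by
  have h3 : Tendsto (fun n : ℕ => l / (n : ℝ) ^ ((1 : ℝ) / 3)) atTop (𝓝 0) := by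
    apply Tendsto.div_atTop tendsto_const_nhds
    exact (tendsto_rpow_atTop (by norm_num)).comp tendsto_natCast_atTop_atTop
  have h4 := h3.eventually (Ioo_mem_nhds (show (-1 : ℝ) < 0 by norm_num)
    (show (0 : ℝ) < 1 by norm_num))
  filter_upwards [h4, eventually_ge_atTop 2] with n h5 h6
  have h7 : (2 : ℝ) ≤ n := by exact_mod_cast h6
  constructor
  · unfold pc
    exact div_pos (by linarith [h5.1]) (by linarith)
  · unfold pc
    rw [div_lt_one (by linarith)]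
    linarith [h5.2]

/-- the choice of the exponent -/
lemma choice (a : ℝ) (ha0 : 0 < a) (ha : a < 1 / 4) : ∃ η ρ : ℝ, 0 < η ∧ η < 1 ∧ 0 < ρ ∧ ρ < 1 / 2 ∧
    ∃ g₀ : ℕ, ∀ g ≥ g₀, a ^ g ≤ ρ ^ (⌈2 * (g : ℝ) / (1 - η)⌉₊) / 2 := by
  have hs : Real.sqrt a < 1 / 2 := by
    rw [Real.sqrt_lt' (by norm_num)]
    linarith
  have hs0 : 0 < Real.sqrt a := Real.sqrt_pos.2 ha0
  obtain ⟨ρ, hρ1, hρ2⟩ := exists_between hs
  have hρ0 : 0 < ρ := hs0.trans hρ1
  have haρ : a < ρ ^ 2 := by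
    have h := Real.sq_sqrt ha0.le
    nlinarith
  have hla : Real.log a < 0 := Real.log_neg ha0 (by linarith)
  have hlρ : Real.log ρ < 0 := Real.log_neg hρ0 (by linarith)
  have hl2 : Real.log a < 2 * Real.log ρ := by
    have h := Real.log_lt_log ha0 haρ
    rw [Real.log_pow] at h
    exact_mod_cast h
  -- `q = 2 log ρ / log a ∈ (0,1)`
  set q : ℝ := 2 * Real.log ρ / Real.log a with hq
  have hq1 : q < 1 := by
    rw [hq, div_lt_one_of_neg hla]
    exact hl2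
  have hq0 : 0 < q := by
    rw [hq]
    exact div_pos_of_neg_of_neg (by linarith) hla
  refine ⟨(1 - q) / 2, ρ, by linarith, by linarith, hρ0, hρ2, ?_⟩
  have h1η : 1 - (1 - q) / 2 = (1 + q) / 2 := by ring
  set w : ℝ := (1 + q) / 2 with hw
  have hw0 : 0 < w := by linarith
  have hqw : q < w := by linarith
  rw [h1η]
  set c : ℝ := 2 * Real.log ρ / w - Real.log a with hc
  have hc0 : 0 < c := by
    rw [hc, sub_pos, lt_div_iff₀ hw0]
    have : Real.log a * q = 2 * Real.log ρ := by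
      rw [hq, mul_div_assoc', mul_comm, mul_div_assoc, div_self hla.ne, mul_one]
    nlinarith
  refine ⟨⌈(Real.log 2 - Real.log ρ) / c⌉₊, fun g hg => ?_⟩
  have hg1 : (Real.log 2 - Real.log ρ) / c ≤ g := (Nat.le_ceil _).trans (by exact_mod_cast hg)
  rw [div_le_iff₀ hc0] at hg1
  set r : ℕ := ⌈2 * (g : ℝ) / w⌉₊ with hr
  have hr1 : (r : ℝ) < 2 * (g : ℝ) / w + 1 := Nat.ceil_lt_add_one (by positivity)
  rw [le_div_iff₀ (by norm_num), ← Real.log_le_log_iff (by positivity) (by positivity),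
    Real.log_mul (by positivity) (by norm_num), Real.log_pow, Real.log_pow]
  have h5 : (r : ℝ) * Real.log ρ ≥ (2 * (g : ℝ) / w + 1) * Real.log ρ := by nlinarith
  have h6 : (2 * (g : ℝ) / w + 1) * Real.log ρ = g * (2 * Real.log ρ / w) + Real.log ρ := by
    field_simp
  have h7 : (g : ℝ) * c = g * (2 * Real.log ρ / w) - g * Real.log a := by rw [hc]; ring
  linarith

/-- the variance factor is harmless -/
lemma smallB (l ρ : ℝ) (hρ0 : 0 < ρ) (hρ1 : ρ < 1) : ∃ r₀ : ℕ, ∀ r ≥ r₀,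
    Real.exp (|l| * (2 * (3 * (r : ℝ)) ^ ((1 : ℝ) / 3)) ^ 2 + 1) * ρ ^ r ≤ 1 := by
  have hlρ : Real.log ρ < 0 := Real.log_neg hρ0 hρ1
  have h1 : Tendsto (fun r : ℕ => (r : ℝ) ^ (-(1 / 3 : ℝ))) atTop (𝓝 0) :=
    (tendsto_rpow_neg_atTop (by norm_num)).comp tendsto_natCast_atTop_atTop
  have h2 : Tendsto (fun r : ℕ => (1 : ℝ) / (r : ℝ)) atTop (𝓝 0) := tendsto_one_div_atTop_nhds_zero_nat
  have h3 : Tendsto (fun r : ℕ => |l| * (4 * (3 : ℝ) ^ ((2 : ℝ) / 3)) * (r : ℝ) ^ (-(1 / 3 : ℝ)) +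
      (1 : ℝ) / (r : ℝ)) atTop (𝓝 (|l| * (4 * (3 : ℝ) ^ ((2 : ℝ) / 3)) * 0 + 0)) :=
    (h1.const_mul _).add h2
  rw [mul_zero, add_zero] at h3
  have h4 := h3.eventually (gt_mem_nhds (show (0 : ℝ) < -Real.log ρ by linarith))
  obtain ⟨r₀, hr₀⟩ := eventually_atTop.1 h4
  refine ⟨max r₀ 1, fun r hr => ?_⟩
  have h5 := hr₀ r ((le_max_left _ _).trans hr)
  have hr1 : 1 ≤ r := (le_max_right _ _).trans hr
  have hrp : (0 : ℝ) < r := by exact_mod_cast hr1
  have h6 : (2 * (3 * (r : ℝ)) ^ ((1 : ℝ) / 3)) ^ 2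
      = (4 * (3 : ℝ) ^ ((2 : ℝ) / 3)) * (r : ℝ) ^ ((2 : ℝ) / 3) := by
    rw [mul_pow, ← Real.rpow_natCast (((3 * (r : ℝ))) ^ ((1 : ℝ) / 3)) 2, ← Real.rpow_mul (by positivity),
      Real.mul_rpow (by norm_num) hrp.le]
    norm_num
    ring
  have h7 : (r : ℝ) ^ ((2 : ℝ) / 3) = (r : ℝ) ^ (-(1 / 3 : ℝ)) * r := by
    nth_rewrite 3 [← Real.rpow_one (r : ℝ)]
    rw [← Real.rpow_add hrp]
    norm_num
  have h8 : ρ ^ r = Real.exp (r * Real.log ρ) := by
    rw [mul_comm, Real.exp_mul, Real.exp_log hρ0, Real.rpow_natCast]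
  rw [h8, ← Real.exp_add, Real.exp_le_one_iff, h6, h7]
  have h9 : (|l| * (4 * (3 : ℝ) ^ ((2 : ℝ) / 3)) * (r : ℝ) ^ (-(1 / 3 : ℝ)) + (1 : ℝ) / (r : ℝ)) * r
      < -Real.log ρ * r := mul_lt_mul_of_pos_right h5 hrp
  have h10 : (1 : ℝ) / r * r = 1 := by field_simp
  nlinarith

/-- the class of graphs -/
def PP (r b : ℕ) (k : ℕ) (H : SimpleGraph (Fin k)) : Prop :=
  ne H = k + r ∧ ∃ S : Finset (Fin k), TT r b #S (H.comap (S.orderEmbOfFin rfl))

/-- their number -/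
noncomputable def NN (r b : ℕ) (k : ℕ) : ℝ :=
  (Nat.card {H : SimpleGraph (Fin k) // H.Connected ∧ PP r b k H} : ℝ)

lemma Ak_eq (r b : ℕ) (p : ℝ) (n k : ℕ) : Ak (PP r b) p n k =
    (n.choose k : ℝ) * (1 - p) ^ (k * (n - k) + k.choose 2) *
      (NN r b k * (p / (1 - p)) ^ (k + r)) := by
  unfold Ak NN
  congr 1
  have h : ∀ H : {H : SimpleGraph (Fin k) // H.Connected ∧ PP r b k H},
      (p / (1 - p)) ^ ne H.1 = (p / (1 - p)) ^ (k + r) := fun H => by rw [H.2.2.1]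
  classical
  haveI : Fintype {H : SimpleGraph (Fin k) // H.Connected ∧ PP r b k H} := Fintype.ofFinite _
  rw [finsum_congr h, finsum_eq_sum_of_fintype, Finset.sum_const, nsmul_eq_mul, Finset.card_univ,
    Nat.card_eq_fintype_card]

theorem goalLOW (hCORI : Pool.Agent.Helper26.AF.StmtCORI) (hKGL : Pool.Agent.Helper26.AF.StmtKGL)
    (hSMO : Pool.Agent.Helper26.AF.StmtSMO) (hWIN : Pool.Agent.Helper26.AF.StmtWIN)
    (hNUL : Pool.Agent.Helper26.AF.StmtNUL) (hGCO : Pool.Agent.Helper26.AF.StmtGCO) :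
    Pool.Agent.Helper26.AF.StmtLOW := by
  intro l ε hε hε4
  set a : ℝ := 1 / 4 - ε with ha
  obtain ⟨η, ρ, hη0, hη1, hρ0, hρ1, g₀, hg₀⟩ := choice a (by linarith) (by linarith)
  obtain ⟨r₁, hr₁⟩ := hKGL η hη0
  obtain ⟨r₂, hr₂⟩ := hNUL l ρ hρ0 hρ1
  obtain ⟨r₃, hr₃⟩ := smallB l ρ hρ0 (by linarith)
  refine ⟨max (max g₀ r₁) (max (max r₂ r₃) 1), fun g hg => ?_⟩
  have hgg₀ : g₀ ≤ g := (le_max_left _ _).trans ((le_max_left _ _).trans hg)
  have hgr₁ : r₁ ≤ g := (le_max_right _ _).trans ((le_max_left _ _).trans hg)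
  have hgr₂ : r₂ ≤ g :=
    (le_max_left _ _).trans ((le_max_left _ _).trans ((le_max_right _ _).trans hg))
  have hgr₃ : r₃ ≤ g :=
    (le_max_right _ _).trans ((le_max_left _ _).trans ((le_max_right _ _).trans hg))
  have hg1 : 1 ≤ g := (le_max_right _ _).trans ((le_max_right _ _).trans hg)
  have hfin := hg₀ g hgg₀
  set r : ℕ := ⌈2 * (g : ℝ) / (1 - η)⌉₊ with hr
  have hrr : 2 * (g : ℝ) / (1 - η) ≤ r := Nat.le_ceil _
  have hrr' : 2 * (g : ℝ) ≤ r * (1 - η) := by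
    rwa [div_le_iff₀ (by linarith)] at hrr
  have hgr : g ≤ r := by
    have h0 : (0 : ℝ) ≤ r := Nat.cast_nonneg r
    have h1 : (0 : ℝ) ≤ g := Nat.cast_nonneg g
    have : (g : ℝ) ≤ r := by nlinarith
    exact_mod_cast this
  have hr1 : 1 ≤ r := hg1.trans hgr
  set b : ℕ := ⌊η * r⌋₊ with hb
  have hbr : b + 2 * g < r + 2 := by
    have h1 : (b : ℝ) ≤ η * r := Nat.floor_le (by positivity)
    have h2 : (b : ℝ) + 2 * g ≤ r := by linarith
    have h3 : b + 2 * g ≤ r := by exact_mod_cast h2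
    omega
  obtain ⟨s₀, hs₀⟩ := hr₁ r (hgr₁.trans hgr)
  have hnul := hr₂ r (hgr₂.trans hgr) (max s₀ (2 * r)) (le_max_right _ _)
  have hB := hr₃ r (hgr₃.trans hgr)
  set c : ℝ := 2 * (3 * (r : ℝ)) ^ ((1 : ℝ) / 3) with hc
  have hrp : (0 : ℝ) < r := by exact_mod_cast hr1
  have hc0 : 0 < c := by positivity
  filter_upwards [hnul, hWIN l c hc0, pc_event l] with n hn1 hn2 hn3
  -- the counting hypothesis
  have hN : ∀ k, ∑ s ∈ Icc (max s₀ (2 * r)) k, (k.choose s : ℝ) * (ee r / 4 * (s.factorial : ℝ) *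
      (((s + r - 1).factorial : ℝ) / (((s - 2 * r).factorial : ℝ) * ((3 * r - 1).factorial : ℝ)))) *
      ((s : ℝ) * (k : ℝ) ^ (k - s)) ≤ NN r b k * k := by
    intro k
    have h1 := hCORI k r (fun s Γ => TT r b s Γ) (fun s Γ h => ⟨h.1, h.2.1, h.2.2.1⟩)
    have h2 : (∑ s ∈ Icc 1 k, (k.choose s : ℝ) *
        (Nat.card {Γ : SimpleGraph (Fin s) // TT r b s Γ} : ℝ) * ((s : ℝ) * (k : ℝ) ^ (k - s)))
        ≤ NN r b k * k := by
      unfold NN PP
      exact_mod_cast h1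
    refine le_trans ?_ h2
    refine le_trans (Finset.sum_le_sum (g := fun s => (k.choose s : ℝ) *
        (Nat.card {Γ : SimpleGraph (Fin s) // TT r b s Γ} : ℝ) * ((s : ℝ) * (k : ℝ) ^ (k - s)))
        fun s hs => ?_) ?_
    · have hs1 : s₀ ≤ s := (le_max_left _ _).trans (mem_Icc.1 hs).1
      have h3 := hs₀ s hs1
      exact mul_le_mul_of_nonneg_right (mul_le_mul_of_nonneg_left h3 (by positivity)) (by positivity)
    · refine Finset.sum_le_sum_of_subset_of_nonneg ?_ (fun s _ _ => by positivity)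
      intro s hs
      have h4 := mem_Icc.1 hs
      have h5 : 2 * r ≤ s := (le_max_right _ _).trans h4.1
      exact mem_Icc.2 ⟨by omega, h4.2⟩
  have hμ := hn1 (NN r b) (fun k => Nat.cast_nonneg _) hN
  have hμ' : ρ ^ r ≤ ∑ k ∈ KW r n, Ak (PP r b) (pc l n) n k := by
    refine hμ.trans (le_of_eq (Finset.sum_congr rfl fun k _ => ?_))
    rw [Ak_eq]
  set μ : ℝ := ∑ k ∈ KW r n, Ak (PP r b) (pc l n) n k with hμd
  set B : ℝ := Real.exp (|l| * c ^ 2 + 1) with hBd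
  have hB0 : 0 < B := Real.exp_pos _
  have hsmo := hSMO n (PP r b) (KW r n) (pc l n) B hn3.1 hn3.2 hB0.le
    (fun k hk => by
      unfold KW at hk
      exact (mem_Icc.1 (mem_filter.1 hk).1).1)
    (fun k hk k' hk' => by
      unfold KW at hk hk'
      have h1 := mem_filter.1 hk
      have h2 := mem_filter.1 hk'
      exact hn2 k k' (mem_Icc.1 h1.1).1 (mem_Icc.1 h2.1).1 h1.2 h2.2)
  rw [← hμd] at hsmo
  set E : ℝ := Pr (pc l n) (fun G : SimpleGraph (Fin n) => ∃ Q : Finset (Fin n), #Q ∈ KW r n ∧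
      IsComp G Q ∧ PP r b #Q (G.comap (Q.orderEmbOfFin rfl))) with hE
  have hmain : ρ ^ r / 2 ≤ E := by
    by_contra hcon
    push Not at hcon
    have hm0 : 0 < ρ ^ r := by positivity
    have h1 : 0 < 1 + B * μ := by
      have : 0 < μ := lt_of_lt_of_le hm0 hμ'
      positivity
    have h2 : μ < (1 + B * μ) * (ρ ^ r / 2) := lt_of_le_of_lt hsmo (mul_lt_mul_of_pos_left hcon h1)
    have h3 : B * μ * ρ ^ r ≤ μ := by
      have : 0 < μ := lt_of_lt_of_le hm0 hμ'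
      nlinarith
    nlinarith
  refine hfin.trans (hmain.trans ?_)
  rw [hE]
  refine Pr_mono hn3.1.le hn3.2.le ?_
  rintro G ⟨Q, -, -, -, S, hS⟩
  refine hGCO n #S r b g G ((S.orderEmbOfFin rfl).toEmbedding.trans (Q.orderEmbOfFin rfl).toEmbedding)
    _ ?_ hS hbr
  intro x y hxy
  exact hxy

end Pool.Agent.Helper69.AF
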