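import Mathlib
import Pool.Agent.Helper26.AF.Goals

/-!
Packet AF-MONO (project AF, MP_af6c86_pr): embeddability is a decreasing property.
-/

set_option autoImplicit false

namespace Pool.Agent.Helper69.AF

open Finset
open Pool.Agent.Helper26.AF

theorem goalMONO (hDELG : Pool.Agent.Helper26.AF.StmtDELG) : Pool.Agent.Helper26.AF.StmtMONO := by
  classical
  intro V _ _ G G' g hle hG
  have key : ∀ m : ℕ, ∀ G : SimpleGraph V, G' ≤ G → (G.edgeSet \ G'.edgeSet).ncard = m →
      Embeds G g → Embeds G' g := by
    intro m
    induction m with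
    | zero =>
      intro G hle hm hG
      have h1 : G.edgeSet \ G'.edgeSet = ∅ := (Set.ncard_eq_zero (Set.toFinite _)).1 hm
      have h2 : G ≤ G' := by
        rw [← SimpleGraph.edgeSet_subset_edgeSet]
        exact Set.diff_eq_empty.1 h1
      rwa [le_antisymm hle h2]
    | succ m ih =>
      intro G hle hm hG
      have hne : (G.edgeSet \ G'.edgeSet).Nonempty := by
        rw [← Set.ncard_pos (Set.toFinite _)]
        omega
      obtain ⟨e, he⟩ := hne
      induction e using Sym2.ind with
      | _ u v =>
        have huv : G.Adj u v := he.1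
        refine ih (G.deleteEdges {s(u, v)}) ?_ ?_ (hDELG V G g u v huv hG)
        · rw [← SimpleGraph.edgeSet_subset_edgeSet, SimpleGraph.edgeSet_deleteEdges]
          intro x hx
          refine ⟨(SimpleGraph.edgeSet_subset_edgeSet.2 hle) hx, fun hxe => he.2 ?_⟩
          rw [Set.mem_singleton_iff] at hxe
          rwa [← hxe]
        · rw [SimpleGraph.edgeSet_deleteEdges]
          have h3 : (G.edgeSet \ {s(u, v)}) \ G'.edgeSet = (G.edgeSet \ G'.edgeSet) \ {s(u, v)} := by
            rw [Set.diff_diff, Set.diff_diff, Set.union_comm]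
          rw [h3, Set.ncard_diff_singleton_of_mem he, hm]
          rfl
  exact key _ G hle rfl hG

end Pool.Agent.Helper69.AF
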