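import Mathlib
import Pool.Agent.Helper26.AF.Goals3
import Pool.Agent.Helper26.AF.Base

/-!
Packet AF-UPP (project AF, MP_af6c86_pr): the upper tail of the total complexity.
-/

set_option autoImplicit false

namespace Pool.Agent.Helper69.AF

open Finset Filter Topology
open Pool.Agent.Helper26.AF

lemma pc_event' (l : ℝ) : ∀ᶠ n : ℕ in atTop, 0 < pc l n ∧ pc l n < 1 := by
  have h3 : Tendsto (fun n : ℕ => l / (n : ℝ) ^ ((1 : ℝ) / 3)) atTop (𝓝 0) := by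
    apply Tendsto.div_atTop tendsto_const_nhds
    exact (tendsto_rpow_atTop (by norm_num)).comp tendsto_natCast_atTop_atTop
  have h4 := h3.eventually (Ioo_mem_nhds (show (-1 : ℝ) < 0 by norm_num)
    (show (0 : ℝ) < 1 by norm_num))
  filter_upwards [h4, eventually_ge_atTop 2] with n h5 h6
  have h7 : (2 : ℝ) ≤ n := by exact_mod_cast h6
  constructor
  · unfold pc
    exact div_pos (by linarith [h5.1]) (by linarith)
  · unfold pc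
    rw [div_lt_one (by linarith)]
    linarith [h5.2]

/-- the comparison weights -/
noncomputable def AA (l δ : ℝ) (n k : ℕ) : ℝ :=
  (n : ℝ) ^ k * Real.exp (-(k : ℝ) - (1 - δ) * (k : ℝ) ^ 3 / (6 * (n : ℝ) ^ 2)
      - l * k / (n : ℝ) ^ ((1 : ℝ) / 3))

lemma AA_nonneg (l δ : ℝ) (n k : ℕ) : 0 ≤ AA l δ n k := by unfold AA; positivity

lemma AA_zero (l δ : ℝ) (n : ℕ) : AA l δ n 0 = 1 := by simp [AA]

lemma AA_add (l δ : ℝ) (hδ : δ < 1) (n a b : ℕ) : AA l δ n (a + b) ≤ AA l δ n a * AA l δ n b := by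
  unfold AA
  have h1 : (n : ℝ) ^ a * Real.exp (-(a : ℝ) - (1 - δ) * (a : ℝ) ^ 3 / (6 * (n : ℝ) ^ 2)
      - l * a / (n : ℝ) ^ ((1 : ℝ) / 3)) * ((n : ℝ) ^ b * Real.exp (-(b : ℝ) -
      (1 - δ) * (b : ℝ) ^ 3 / (6 * (n : ℝ) ^ 2) - l * b / (n : ℝ) ^ ((1 : ℝ) / 3)))
      = (n : ℝ) ^ (a + b) * Real.exp ((-(a : ℝ) - (1 - δ) * (a : ℝ) ^ 3 / (6 * (n : ℝ) ^ 2)
      - l * a / (n : ℝ) ^ ((1 : ℝ) / 3)) + (-(b : ℝ) -
      (1 - δ) * (b : ℝ) ^ 3 / (6 * (n : ℝ) ^ 2) - l * b / (n : ℝ) ^ ((1 : ℝ) / 3))) := by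
    rw [Real.exp_add, pow_add]
    ring
  rw [h1]
  refine mul_le_mul_of_nonneg_left (Real.exp_le_exp.2 ?_) (by positivity)
  have h2 : (a : ℝ) ^ 3 + (b : ℝ) ^ 3 ≤ ((a : ℝ) + b) ^ 3 := by
    have ha : (0 : ℝ) ≤ a := Nat.cast_nonneg a
    have hb : (0 : ℝ) ≤ b := Nat.cast_nonneg b
    have : ((a : ℝ) + b) ^ 3 = (a : ℝ) ^ 3 + (b : ℝ) ^ 3 + 3 * a * b * (a + b) := by ring
    have : 0 ≤ 3 * (a : ℝ) * b * (a + b) := by positivity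
    linarith
  have h3 : (1 - δ) * ((a : ℝ) ^ 3 + (b : ℝ) ^ 3) / (6 * (n : ℝ) ^ 2) ≤
      (1 - δ) * ((a : ℝ) + b) ^ 3 / (6 * (n : ℝ) ^ 2) :=
    div_le_div_of_nonneg_right (mul_le_mul_of_nonneg_left h2 (by linarith)) (by positivity)
  have h4 : (1 - δ) * ((a : ℝ) ^ 3 + (b : ℝ) ^ 3) / (6 * (n : ℝ) ^ 2) =
      (1 - δ) * (a : ℝ) ^ 3 / (6 * (n : ℝ) ^ 2) + (1 - δ) * (b : ℝ) ^ 3 / (6 * (n : ℝ) ^ 2) := by ring
  have h5 : l * ((a : ℝ) + b) / (n : ℝ) ^ ((1 : ℝ) / 3) =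
      l * a / (n : ℝ) ^ ((1 : ℝ) / 3) + l * b / (n : ℝ) ^ ((1 : ℝ) / 3) := by ring
  push_cast
  rw [h4] at h3
  rw [h5]
  linarith

theorem goalUPP (hFAL : Pool.Agent.Helper26.AF.StmtFAL) (hWR : Pool.Agent.Helper26.AF.StmtWR)
    (hEXPB : Pool.Agent.Helper26.AF.StmtEXPB) (hISN : Pool.Agent.Helper26.AF.StmtISN) :
    Pool.Agent.Helper26.AF.StmtUPP := by
  intro l t ht1 ht2
  obtain ⟨δ, hδ0, hδ1, c, hc, C, hC, n₀, hn₀⟩ := hWR l t ht1 ht2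
  obtain ⟨C₁, hC₁, n₁, hn₁⟩ := hFAL l δ hδ0 (by linarith)
  have ht0 : 0 < t := by linarith
  refine ⟨C₁ * Real.exp C + 1, by positivity, fun s => ?_⟩
  have hts : 0 < t ^ s := by positivity
  have hlim := (hISN l c hc).eventually (gt_mem_nhds (show (0 : ℝ) < 1 / t ^ s by positivity))
  filter_upwards [hlim, pc_event' l, eventually_ge_atTop n₀, eventually_ge_atTop n₁] with n h1 h2 h3 h4
  have hE := hEXPB n ⌊c * n⌋₊ (pc l n) t C₁ (AA l δ n) h2.1 h2.2 ht1.le hC₁.le (AA_nonneg l δ n)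
    (AA_zero l δ n) (AA_add l δ (by linarith) n) (fun k hk => hn₁ n h4 k hk)
  have hS : (∑ j ∈ Icc 1 n, yy t (pc l n / (1 - pc l n)) ⌊c * n⌋₊ j * AA l δ n j /
      (j.factorial : ℝ)) ≤ C := hn₀ n h3
  have hE2 := hE.trans (mul_le_mul_of_nonneg_left (Real.exp_le_exp.2 hS) hC₁.le)
  classical
  have hM := Pr_markov (V := Fin n) (p := pc l n) (a := t ^ s) h2.1.le h2.2.le
    (f := fun G : SimpleGraph (Fin n) =>
      if ∀ Q, IsComp G Q → eIn G Q ≤ #Q + ⌊c * n⌋₊ then t ^ ZZ G else 0)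
    (P := fun G => (∀ Q, IsComp G Q → eIn G Q ≤ #Q + ⌊c * n⌋₊) ∧ s ≤ ZZ G)
    (fun G => by split_ifs <;> positivity)
    (fun G hG => by
      rw [if_pos hG.1]
      exact pow_le_pow_right₀ ht1.le hG.2)
  have hM2 : t ^ s * Pr (pc l n) (fun G : SimpleGraph (Fin n) =>
      (∀ Q, IsComp G Q → eIn G Q ≤ #Q + ⌊c * n⌋₊) ∧ s ≤ ZZ G) ≤ C₁ * Real.exp C := by
    refine hM.trans (le_trans (le_of_eq ?_) hE2)
    congr 1
  have hU : Pr (pc l n) (fun G : SimpleGraph (Fin n) => s ≤ ZZ G) ≤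
      Pr (pc l n) (fun G : SimpleGraph (Fin n) =>
        (∀ Q, IsComp G Q → eIn G Q ≤ #Q + ⌊c * n⌋₊) ∧ s ≤ ZZ G) +
      Pr (pc l n) (fun G : SimpleGraph (Fin n) => ∃ Q, IsComp G Q ∧ #Q + ⌊c * n⌋₊ < eIn G Q) := by
    refine (Pr_mono h2.1.le h2.2.le ?_).trans (Pr_or_le h2.1.le h2.2.le _ _)
    intro G hG
    by_cases h : ∀ Q, IsComp G Q → eIn G Q ≤ #Q + ⌊c * n⌋₊
    · exact Or.inl ⟨h, hG⟩
    · right
      push Not at h
      exact h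
  refine hU.trans ?_
  rw [add_div]
  refine add_le_add ?_ h1.le
  rw [le_div_iff₀ hts, mul_comm]
  exact hM2

end Pool.Agent.Helper69.AF
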